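import Pool.Agent.Work.MP_6dc561_nt.AB.Main

/-!
# Twists by all primitive characters, for arbitrary sequences `α β : ℕ → ℝ`

The results of `AB/Main.lean` with `aQ f 1 p / √p`, `bQ f 1 p / p` replaced by arbitrary sequences `α β`; the primes are
still the good primes of an auxiliary curve `f`.
-/

set_option autoImplicit false

open Polynomial Finset

namespace Pool.GF

open Pool.Agent.Work.MP_6dc561_nt.AA
open Pool.Agent.Work.MP_6dc561_nt.AB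
open Pool.Agent.Work.MP_6dc561_nt.PS (LipR good_x)

/-- What is proved at the point `x` for the characters outside `E`, with error `η`. -/
structure GoodAt (f : ℤ[X]) (α β : ℕ → ℝ) (R : ℝ) (Q : ℕ) (E : Finset Ch) (x : ℕ) (η : ℝ) : Prop where
  pos : 0 < (goodUpToQ f 1 x).card
  log_le : 2 * Real.log Q ≤ η * (goodUpToQ f 1 x).card
  sqrt_le : Real.sqrt x ≤ η * (goodUpToQ f 1 x).card
  one_sum : ∀ y ∈ Prim Q, y ∉ E → ‖∑ p ∈ goodUpToQ f 1 x, ev y p‖ ≤ η * (goodUpToQ f 1 x).card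
  sum : ∀ y ∈ Prim Q, y ∉ E → ∀ G : ℝ → ℝ → ℝ, LipR R G →
    ‖∑ p ∈ goodUpToQ f 1 x, (G (α p) (β p) : ℂ) * ev y p‖ ≤
      η * (goodUpToQ f 1 x).card

theorem char_core (f : ℤ[X]) (hdeg : f.natDegree = 5 ∨ f.natDegree = 6)
    (hsep : (f.map (Int.castRingHom ℚ)).Separable) (α β : ℕ → ℝ) (R δ κ : ℝ) (hκpos : 0 < κ)
    (hκδ : 184 * κ ≤ δ) (hκ120 : 120 * κ ≤ 1) :
    ∃ A : ℝ, 1 ≤ A ∧ ∀ Q : ℕ, 2 ≤ Q → ∃ E : Finset Ch,
      (E.card : ℝ) ≤ A * (Q : ℝ) ^ δ ∧ E ⊆ Prim Q ∧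
      ∀ x : ℕ, (Real.log Q) ^ (1 / κ) ≤ x → (x : ℝ) ≤ Real.exp ((Q : ℝ) ^ κ) →
        1 ≤ x ∧ (2 ≤ A * (min (x : ℝ) Q) ^ (-κ) ∨ GoodAt f α β R Q E x (A * (min (x : ℝ) Q) ^ (-κ))) := by
  classical
  have hinf := goodQ_infinite f hdeg hsep
  obtain ⟨C₀, hC₀⟩ := primeSeq_gpr f hdeg hsep
  set R' : ℝ := max R 0 with hR'
  have hR'0 : 0 ≤ R' := le_max_right _ _
  have hδ : 0 < δ := by linarith
  obtain ⟨κ₀, hκ₀⟩ : ∃ κ₀ : ℝ, κ = κ₀ / 8 := ⟨8 * κ, by ring⟩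
  have hκ0 : 0 < κ₀ := by linarith
  have hκ15 : κ₀ ≤ 1 / 15 := by linarith
  have hκδ : 23 * κ₀ ≤ δ := by linarith
  obtain ⟨B, hB0, D₀, N₀, hAll⟩ := exceptional_all (ι := Ch) hC₀ α β hR'0 hκ0 hκ15
  obtain ⟨X₀, hX₀1, hX₀⟩ := good_x f hinf hC₀ hκ0 hκ15 N₀
  rw [← hκ₀] at hX₀
  set D₁ : ℕ := max D₀ 21 with hD₁
  have hD₁r : (0 : ℝ) < D₁ := by
    have : 21 ≤ D₁ := le_max_right _ _
    exact_mod_cast lt_of_lt_of_le (by norm_num) this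
  have hX₀r : (1 : ℝ) ≤ X₀ := by exact_mod_cast hX₀1
  have hX₀0 : (0 : ℝ) < X₀ := by linarith
  have hXκ : 0 ≤ (X₀ : ℝ) ^ κ := Real.rpow_nonneg hX₀0.le _
  have hDκ : 0 ≤ (D₁ : ℝ) ^ κ := Real.rpow_nonneg hD₁r.le _
  set A : ℝ := (B + 1) + 2 * (X₀ : ℝ) ^ κ + 2 * (D₁ : ℝ) ^ κ with hA
  have hAB : B + 1 ≤ A := by rw [hA]; linarith
  have hAX : 2 * (X₀ : ℝ) ^ κ ≤ A := by rw [hA]; linarith
  have hAD : 2 * (D₁ : ℝ) ^ κ ≤ A := by rw [hA]; linarith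
  have hA1 : 1 ≤ A := by linarith
  have hA0 : 0 ≤ A := by linarith
  -- trivial range
  have htriv : ∀ (Z : ℝ) (m : ℝ), 0 < Z → 0 < m → m ≤ Z → 2 * Z ^ κ ≤ A → 2 ≤ A * m ^ (-κ) := by
    intro Z m hZ hm hmZ hZA
    have h2 : Z ^ (-κ) ≤ m ^ (-κ) := Real.rpow_le_rpow_of_nonpos hm hmZ (by linarith)
    calc (2 : ℝ) = 2 * Z ^ κ * Z ^ (-κ) := by
          rw [mul_assoc, ← Real.rpow_add hZ, add_neg_cancel, Real.rpow_zero, mul_one]
      _ ≤ A * m ^ (-κ) := mul_le_mul hZA h2 (Real.rpow_nonneg hZ.le _) hA0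
  refine ⟨A, hA1, fun Q hQ => ?_⟩
  have hQ2 : (2 : ℝ) ≤ Q := by exact_mod_cast hQ
  have hQ1 : (1 : ℝ) ≤ Q := by linarith
  have hQ0 : (0 : ℝ) < Q := by linarith
  have hQδ : 1 ≤ (Q : ℝ) ^ δ := Real.one_le_rpow hQ1 hδ.le
  have hxpos : ∀ x : ℕ, (Real.log Q) ^ (1 / κ) ≤ x → 1 ≤ x := by
    intro x hx1
    rcases Nat.eq_zero_or_pos x with h | h
    · exfalso
      rw [h, Nat.cast_zero] at hx1
      have hlog : 0 < Real.log Q := Real.log_pos (by linarith)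
      have : 0 < (Real.log Q) ^ (1 / κ) := Real.rpow_pos_of_pos hlog _
      linarith
    · exact h
  by_cases hDD : Q < D₁
  · refine ⟨∅, by simp; positivity, by simp, fun x hx1 hx2 => ?_⟩
    have hx := hxpos x hx1
    have hxr : (1 : ℝ) ≤ x := by exact_mod_cast hx
    refine ⟨hx, Or.inl ?_⟩
    have hm1 : 1 ≤ min (x : ℝ) Q := le_min hxr hQ1
    apply htriv D₁ _ hD₁r (by linarith) _ hAD
    exact (min_le_right _ _).trans (by exact_mod_cast hDD.le)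
  push Not at hDD
  have hDD₀ : D₀ ≤ Q := (le_max_left _ _).trans hDD
  have hQ21 : 21 ≤ Q := (le_max_right _ _).trans hDD
  obtain ⟨E₀, hE1, hE2⟩ := hAll Q hDD₀ ev (Prim Q) (chFam_Prim Q)
  refine ⟨E₀ ∩ Prim Q, ?_, inter_subset_right, fun x hx1 hx2 => ?_⟩
  · have h0 : ((E₀ ∩ Prim Q).card : ℝ) ≤ E₀.card := by
      exact_mod_cast card_le_card inter_subset_left
    have h2 : (Q : ℝ) ^ (23 * κ₀) ≤ (Q : ℝ) ^ δ := Real.rpow_le_rpow_of_exponent_le hQ1 hκδ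
    calc ((E₀ ∩ Prim Q).card : ℝ) ≤ E₀.card := h0
      _ ≤ B * (Q : ℝ) ^ (23 * κ₀) := hE1
      _ ≤ B * (Q : ℝ) ^ δ := mul_le_mul_of_nonneg_left h2 hB0
      _ ≤ A * (Q : ℝ) ^ δ := by
          apply mul_le_mul_of_nonneg_right _ (by linarith)
          linarith
  have hx := hxpos x hx1
  have hxr : (1 : ℝ) ≤ x := by exact_mod_cast hx
  refine ⟨hx, ?_⟩
  set m : ℝ := min (x : ℝ) Q with hm
  have hm1 : 1 ≤ m := le_min hxr hQ1
  have hm0 : 0 < m := by linarith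
  have hmκ : 0 < m ^ (-κ) := Real.rpow_pos_of_pos hm0 _
  by_cases hxX : x < X₀
  · left
    exact htriv X₀ m hX₀0 hm0 ((min_le_left _ _).trans (by exact_mod_cast hxX.le)) hAX
  push Not at hxX
  right
  obtain ⟨g1, g2, g3, g4, g5, g6, g7⟩ := hX₀ Q hQ21 x hxX hx1 hx2
  set n : ℕ := (goodUpToQ f 1 x).card with hn
  have hn0 : (0 : ℝ) < n := by exact_mod_cast g1
  have hBη : B * (n * (min (n : ℝ) Q) ^ (-(κ₀ / 4))) ≤ A * m ^ (-κ) * n := by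
    calc B * (n * (min (n : ℝ) Q) ^ (-(κ₀ / 4))) ≤ B * (n * m ^ (-κ)) := by gcongr
      _ ≤ A * (n * m ^ (-κ)) := by
          apply mul_le_mul_of_nonneg_right _ (by positivity)
          linarith
      _ = A * m ^ (-κ) * n := by ring
  have hmη : m ^ (-κ) * n ≤ A * m ^ (-κ) * n := by
    apply mul_le_mul_of_nonneg_right _ hn0.le
    exact le_mul_of_one_le_left hmκ.le hA1
  refine ⟨g1, g6.trans hmη, g7.trans hmη, fun y hy hyE => ?_, fun y hy hyE G hG => ?_⟩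
  · have hyE₀ : y ∉ E₀ := fun h => hyE (mem_inter.2 ⟨h, hy⟩)
    have h1 := (hE2 y hy hyE₀ n g2 g3 g4).1
    rw [sum_goodUpToQ_complex f hinf x (fun p => ev y p)]
    refine le_trans (le_of_eq ?_) (h1.trans hBη)
    unfold TC
    congr 1
    refine sum_congr rfl fun j _ => ?_
    rw [Complex.ofReal_one, one_mul]
  · have hyE₀ : y ∉ E₀ := fun h => hyE (mem_inter.2 ⟨h, hy⟩)
    have h1 := (hE2 y hy hyE₀ n g2 g3 g4).2 G (hG.mono (le_max_left _ _))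
    rw [sum_goodUpToQ_complex f hinf x
      (fun p => (G (α p) (β p) : ℂ) * ev y p)]
    exact h1.trans hBη

/-- the character theorem -/
theorem char_main (f : ℤ[X]) (α β : ℕ → ℝ) {R κ : ℝ} {Q : ℕ} {E : Finset Ch} {x : ℕ} {A : ℝ} (hQ : 1 ≤ Q)
    (hx : 1 ≤ x)
    (h : 2 ≤ A * (min (x : ℝ) Q) ^ (-κ) ∨ GoodAt f α β R Q E x (A * (min (x : ℝ) Q) ^ (-κ)))
    {y : Ch} (hy : y ∈ Prim Q) (hyE : y ∉ E) {G : ℝ → ℝ → ℝ} (hG : LipR R G) :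
    ‖∑ p ∈ goodUpToQ f 1 x, (G (α p) (β p) : ℂ) * ev y p‖ ≤
      A * (min (x : ℝ) Q) ^ (-κ) * (goodUpToQ f 1 x).card := by
  rcases h with h | h
  · calc ‖∑ p ∈ goodUpToQ f 1 x, (G (α p) (β p) : ℂ) * ev y p‖ ≤
        ∑ p ∈ goodUpToQ f 1 x, (1 : ℝ) := by
          refine norm_sum_le_of_le _ fun p _ => ?_
          rw [norm_mul, Complex.norm_real, Real.norm_eq_abs]
          exact mul_le_one₀ (hG.le_one _ _) (norm_nonneg _) (ev_norm_le _ _)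
      _ = 1 * (goodUpToQ f 1 x).card := by simp
      _ ≤ _ := by
          apply mul_le_mul_of_nonneg_right _ (Nat.cast_nonneg _)
          linarith
  · exact h.sum y hy hyE G hG

end Pool.GF
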